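import Mathlib
import Pool.Agent.H5.ExtA

set_option autoImplicit false

open Set Filter Topology Cardinal

namespace Pool.Agent.Results.MP_0e046d_gt.PerfectExtent

open Pool.Agent.H5.Supp

universe u

/-- The extent `ext(X) = ω + sup {|D| : D ⊆ X closed and discrete}`. -/
noncomputable def ext (X : Type u) [TopologicalSpace X] : Cardinal.{u} :=
  ℵ₀ + ⨆ D : {D : Set X // IsClosed D ∧ DiscreteTopology D}, #D.1

theorem ext_le {X Y : Type u} [TopologicalSpace X] [T35Space X] [TopologicalSpace Y] [T35Space Y]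
    (hY : ∀ s : Set Y, IsClosed s → IsGδ s) (T : Cp X ≃L[ℝ] Cp Y) : ext X ≤ ext Y := by
  have h0 : ℵ₀ ≤ ext Y := self_le_add_right _ _
  have h1 : (⨆ D : {D : Set X // IsClosed D ∧ DiscreteTopology D}, #D.1) ≤ ext Y := by
    apply ciSup_le'
    rintro ⟨D, hD1, hD2⟩
    by_contra hcon
    rw [not_le] at hcon
    obtain ⟨E, hE1, hE2, hE3⟩ := main1 T hY h0 D hD1 hD2 hcon
    have h2 : #E ≤ ⨆ D : {D : Set Y // IsClosed D ∧ DiscreteTopology D}, #D.1 :=
      le_ciSup (f := fun D : {D : Set Y // IsClosed D ∧ DiscreteTopology D} => #D.1)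
        (bddAbove_of_small) ⟨E, hE1, hE2⟩
    have h3 : #E ≤ ext Y := h2.trans (self_le_add_left _ _)
    exact absurd hE3 (not_lt.2 h3)
  calc ext X ≤ ext Y + ext Y := add_le_add h0 h1
    _ = ext Y := add_eq_self h0

/-- If `X` and `Y` are `l`-equivalent Tychonoff spaces in which every closed set is a `G_δ`, in
particular if they are perfectly normal, then `ext X = ext Y`. -/
theorem result :
    (∀ (X Y : Type u) [TopologicalSpace X] [T35Space X] [TopologicalSpace Y] [T35Space Y],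
      (∀ s : Set X, IsClosed s → IsGδ s) → (∀ s : Set Y, IsClosed s → IsGδ s) →
      Nonempty (Cp X ≃L[ℝ] Cp Y) → ext X = ext Y) ∧
    (∀ (X Y : Type u) [TopologicalSpace X] [T6Space X] [TopologicalSpace Y] [T6Space Y],
      Nonempty (Cp X ≃L[ℝ] Cp Y) → ext X = ext Y) := by
  have h : ∀ (X Y : Type u) [TopologicalSpace X] [T35Space X] [TopologicalSpace Y] [T35Space Y],
      (∀ s : Set X, IsClosed s → IsGδ s) → (∀ s : Set Y, IsClosed s → IsGδ s) →
      Nonempty (Cp X ≃L[ℝ] Cp Y) → ext X = ext Y := by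
    rintro X Y _ _ _ _ hX hY ⟨T⟩
    exact le_antisymm (ext_le hY T) (ext_le hX T.symm)
  refine ⟨h, ?_⟩
  intro X Y _ _ _ _ hT
  exact h X Y (fun s hs => PerfectlyNormalSpace.closed_gdelta hs)
    (fun s hs => PerfectlyNormalSpace.closed_gdelta hs) hT

end Pool.Agent.Results.MP_0e046d_gt.PerfectExtent
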